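import Mathlib
import Pool.Agent.Lib.MP_0fa330_lc.Assemble

set_option autoImplicit false

namespace Pool.Agent.Results.MP_0fa330_lc.InfiniteValue

open Pool.Agent.Lib.MP_0fa330_lc

/-- There is an SFT on `ℤ²` whose domino game without passes is winning for `A` with a game value
that is not a natural number. -/
theorem result : ∃ (A : Type) (F : Set (Pattern A)), Finite A ∧ F.Finite ∧
    (∀ q ∈ F, {t : ℤ × ℤ | q t ≠ none}.Finite) ∧
    Win F (emptyPattern A) Player.A ∧
    ∀ n : ℕ, gameValue F (emptyPattern A) Player.A ≠ (n : Ordinal.{0}) := by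
  refine ⟨Alph, forb, finite_alph, forb_finite, fun q hq => forb_support hq, win_empty, ?_⟩
  intro n hn
  exact survive n _ ∅ ∅ (inv_empty _) (hn ▸ win_empty.valueLE_gameValue)

end Pool.Agent.Results.MP_0fa330_lc.InfiniteValue
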